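import Pool.Agent.H79.QF.Targets

/-!
# Quantum algorithms which ask for the values of gates: the lower bound for sequential queries
-/

set_option autoImplicit false

open Finset Matrix Pool.Agent.H1.Mono Pool.Agent.H79.QF

namespace Pool.Agent.H10.QF

private theorem re_star_mul (z : ℂ) : (star z * z).re = ‖z‖ ^ 2 := by
  rw [← Complex.normSq_eq_norm_sq, Complex.normSq_apply]
  show ((starRingEnd ℂ) z * z).re = _
  rw [Complex.mul_re, Complex.conj_re, Complex.conj_im]
  ring

theorem pf_ADV (hPRG : T_PRG) (hINN : T_INN) (hHA1 : T_HA1) (hNRM : T_NRM) : T_ADV := by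
  intro R s Ω X _ _ _ _ K Q ε hR hP he0 he1 ha hp
  set W : ℝ := ∑ t ∈ range R, ∑ r ∈ range (t + 1), 1 / ((t : ℝ) - r + 1) with hW
  set c : ℝ := 2 * Real.sqrt (ε * (1 - ε)) with hc
  have hY : (0 : ℝ) < Fintype.card (Fin R → Ω) := by exact_mod_cast Fintype.card_pos
  have hX : (0 : ℝ) < Fintype.card X := by exact_mod_cast Fintype.card_pos
  have hR0 : (0 : ℝ) < R := by exact_mod_cast hR
  have hN : (0 : ℝ) < Fintype.card (Fin R → Ω) * Fintype.card X := mul_pos hY hX
  -- constants
  have hconst : ∀ z : ℝ, ∑ _y : Fin R → Ω, ∑ _x : X, ∑ t ∈ range R, ∑ r ∈ range (t + 1),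
      z / ((t : ℝ) - r + 1) = z * (Fintype.card (Fin R → Ω) * Fintype.card X * W) := by
    intro z
    have e1 : ∑ t ∈ range R, ∑ r ∈ range (t + 1), z / ((t : ℝ) - r + 1) = z * W := by
      rw [hW, Finset.mul_sum]
      refine Finset.sum_congr rfl fun t _ => ?_
      rw [Finset.mul_sum]
      exact Finset.sum_congr rfl fun r _ => by rw [mul_one_div]
    rw [e1, Finset.sum_const, Finset.sum_const, Finset.card_univ, Finset.card_univ, nsmul_eq_mul,
      nsmul_eq_mul]
    ring
  -- the start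
  have h0 : K.Phi Q 0 = Fintype.card (Fin R → Ω) * Fintype.card X * W := by
    have e1 : ∀ (v v' : Fin s → Prop), Q.ip v v' 0 = 1 := by
      intro v v'
      have e2 : Q.ip v v' 0 = ∑ i, ‖Q.state v 0 i‖ ^ 2 := by
        unfold GQ.ip
        refine Finset.sum_congr rfl fun i _ => ?_
        have e3 : Q.state v' 0 i = Q.state v 0 i := rfl
        rw [e3, re_star_mul]
      rw [e2, hNRM s Q v 0]
    unfold Ch.Phi
    rw [← one_mul ((Fintype.card (Fin R → Ω) : ℝ) * Fintype.card X * W), ← hconst 1]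
    refine Finset.sum_congr rfl fun y _ => Finset.sum_congr rfl fun x _ =>
      Finset.sum_congr rfl fun t _ => Finset.sum_congr rfl fun r _ => ?_
    rw [e1]
  -- the end
  have hT : K.Phi Q Q.T ≤ c * (Fintype.card (Fin R → Ω) * Fintype.card X * W) := by
    unfold Ch.Phi
    rw [← hconst c]
    refine Finset.sum_le_sum fun y _ => Finset.sum_le_sum fun x _ =>
      Finset.sum_le_sum fun t ht => Finset.sum_le_sum fun r hr => ?_
    rw [Finset.mem_range] at ht hr
    have hrt : (r : ℝ) ≤ t := by exact_mod_cast (by omega : r ≤ t)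
    refine div_le_div_of_nonneg_right ?_ (by linarith)
    exact hINN Q.basis Q.acc (Q.state (K.a y r) Q.T) (Q.state (K.p y t x) Q.T) ε
      (hNRM s Q _ _) (hNRM s Q _ _) he0 he1 (ha y r (by omega)) (hp y t ht x)
  -- the progress
  have hst : ∀ j : ℕ, K.Phi Q 0 - K.Phi Q j ≤
      j * (81 / 5 * (R * Fintype.card (Fin R → Ω) * Fintype.card X)) := by
    intro j
    induction j with
    | zero => simp
    | succ j ih =>
      have h1 := (abs_le.1 (hPRG R s Ω X K Q hP j)).1
      push_cast
      linarith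
  have h1 := hst Q.T
  rw [h0] at h1
  have h2 : (1 - c) * W ≤ 81 / 5 * Q.T * R := by
    have h3 : (Fintype.card (Fin R → Ω) * Fintype.card X : ℝ) * ((1 - c) * W) ≤
        (Fintype.card (Fin R → Ω) * Fintype.card X : ℝ) * (81 / 5 * Q.T * R) := by
      nlinarith
    exact le_of_mul_le_mul_left h3 hN
  have hc1 : c ≤ 1 := by
    have h3 : Real.sqrt (ε * (1 - ε)) ≤ 1 / 2 := by
      rw [Real.sqrt_le_left (by norm_num)]
      nlinarith [sq_nonneg (ε - 1 / 2)]
    rw [hc]
    linarith
  have h4 : (1 - c) * (R * (Real.log R - 1 / 2)) ≤ (1 - c) * W :=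
    mul_le_mul_of_nonneg_left (hHA1 R hR) (by linarith)
  have h5 : R * ((1 - c) * (Real.log R - 1 / 2)) ≤ R * (81 / 5 * Q.T) := by
    nlinarith
  exact le_of_mul_le_mul_left h5 hR0

end Pool.Agent.H10.QF
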