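import Pool.Agent.H79.QF.Targets

/-!
# Quantum algorithms which ask for the values of gates: the choice of the parameters
-/

set_option autoImplicit false

open Finset Matrix Pool.Agent.H1.Mono Pool.Agent.H78.FG Pool.Agent.H79.QF

namespace Pool.Agent.H10.QF

/-- the size of the circuit is small -/
private theorem size {s c ν b a Δ σ q e j0 : ℕ} {x : ℝ} (hc : c = (5 * q + 65) * ν + σ + 1)
    (hΔ : Δ = 2 * (ν * b) + ν * (1 + a) + 3) (hexp : x ≤ ((ν * b : ℕ) : ℝ) - (c : ℝ))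
    (hT0 : (2 : ℝ) ^ (b * ν) / 2 ^ (e * (j0 + 1)) * 2 ^ σ ≤ 2 ^ (b * ν) / 2)
    (hsize : (s : ℝ) < 2 ^ x) :
    2 * 2 * (s * (2 * 2 ^ b * 2 ^ a) ^ ν) < 2 ^ Δ ∧
      ((s : ℝ) * (1 / ((2 : ℝ) ^ (5 * q + 65))⁻¹) ^ ν +
        (2 : ℝ) ^ (b * ν) / 2 ^ (e * (j0 + 1))) * 2 ^ σ ≤ 2 ^ (b * ν) := by
  rcases Nat.eq_zero_or_pos s with hs0 | hs1
  · subst hs0
    refine ⟨by simp, ?_⟩
    rw [Nat.cast_zero, zero_mul, zero_add]
    have h1 : (0 : ℝ) ≤ 2 ^ (b * ν) := by positivity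
    linarith
  have hkey : (s + 1) * 2 ^ c ≤ 2 ^ (ν * b) := by
    have h1 : (s : ℝ) * 2 ^ c < 2 ^ (ν * b) := by
      have h2 : (s : ℝ) < 2 ^ (((ν * b : ℕ) : ℝ) - (c : ℝ)) :=
        lt_of_lt_of_le hsize (Real.rpow_le_rpow_of_exponent_le (by norm_num) hexp)
      rw [Real.rpow_sub (by norm_num), Real.rpow_natCast, Real.rpow_natCast,
        lt_div_iff₀ (by positivity)] at h2
      exact h2
    have h2 : s * 2 ^ c < 2 ^ (ν * b) := by exact_mod_cast h1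
    have h3 : 2 ^ c < 2 ^ (ν * b) :=
      lt_of_le_of_lt (Nat.le_mul_of_pos_left _ hs1) h2
    have h4 : c < ν * b := (Nat.pow_lt_pow_iff_right (by norm_num : 1 < 2)).1 h3
    obtain ⟨d, hd⟩ : ∃ d, ν * b = c + d := ⟨ν * b - c, by omega⟩
    rw [hd, pow_add, mul_comm] at h2 ⊢
    exact Nat.mul_le_mul_left _ (Nat.lt_of_mul_lt_mul_left h2)
  have hs2 : s + 1 ≤ 2 ^ (ν * b) :=
    le_trans (Nat.le_mul_of_pos_right _ (by positivity)) hkey
  constructor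
  · calc 2 * 2 * (s * (2 * 2 ^ b * 2 ^ a) ^ ν)
        ≤ 2 * 2 * (2 ^ (ν * b) * (2 * 2 ^ b * 2 ^ a) ^ ν) := by
          have : s ≤ 2 ^ (ν * b) := by omega
          gcongr
      _ = 2 ^ (2 * (ν * b) + ν * (1 + a) + 2) := by
          rw [show 2 * 2 ^ b * 2 ^ a = 2 ^ (1 + b + a) by rw [pow_add, pow_add, pow_one],
            ← pow_mul, ← pow_add, show (2 : ℕ) * 2 = 2 ^ 2 by norm_num, ← pow_add]
          congr 1
          ring
      _ < 2 ^ Δ := Nat.pow_lt_pow_right (by norm_num) (by omega)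
  · rw [add_mul]
    have h1 : (s : ℝ) * (1 / ((2 : ℝ) ^ (5 * q + 65))⁻¹) ^ ν * 2 ^ σ ≤
        2 ^ (b * ν) / 2 := by
      rw [le_div_iff₀ (by norm_num), one_div, inv_inv, ← pow_mul]
      have h2 : ((s : ℝ) + 1) * 2 ^ c ≤ 2 ^ (ν * b) := by exact_mod_cast hkey
      calc (s : ℝ) * 2 ^ ((5 * q + 65) * ν) * 2 ^ σ * 2 = (s : ℝ) * 2 ^ c := by
            rw [hc, pow_add, pow_add, pow_one]
            ring
        _ ≤ ((s : ℝ) + 1) * 2 ^ c := by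
            have h3 : (0 : ℝ) ≤ 2 ^ c := by positivity
            nlinarith
        _ ≤ 2 ^ (ν * b) := h2
        _ = _ := by rw [mul_comm]
    linarith

theorem pf_ZOT (hZOC : T_ZOC) : T_ZOT := by
  intro n m L r M D hn hL hr hm hDx hDn hDL
  classical
  have hnR : (0 : ℝ) < n := by
    have : 0 < n := by omega
    exact_mod_cast this
  obtain ⟨l, hl⟩ : ∃ l, l = Nat.log 2 n + 1 := ⟨_, rfl⟩
  have hnl : n < 2 ^ l := by
    rw [hl]
    exact Nat.lt_pow_succ_log_self (by norm_num) n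
  have hln : 2 ^ (l - 1) ≤ n := by
    rw [hl, Nat.add_sub_cancel]
    exact Nat.pow_log_le_self 2 (by omega)
  have hl2 : 2 ≤ l := by
    rw [hl]
    have : 1 ≤ Nat.log 2 n := Nat.le_log_of_pow_le (by norm_num) (by omega)
    omega
  have hx : ((l - 1 : ℕ) : ℝ) ≤ Real.logb 2 n := by
    rw [Real.le_logb_iff_rpow_le (by norm_num) hnR, Real.rpow_natCast]
    exact_mod_cast hln
  have hD : 14 * l < (L - r) + 16 := by
    have h1 : ((14 * (l - 1) : ℕ) : ℝ) < ((L - r + 2 : ℕ) : ℝ) := by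
      push_cast
      rw [Nat.cast_sub hr.le]
      have h2 : ((l - 1 : ℕ) : ℝ) = (l : ℝ) - 1 := by
        rw [Nat.cast_sub (by omega)]
        simp
      rw [h2] at hx ⊢
      linarith
    have h2 : 14 * (l - 1) < L - r + 2 := by exact_mod_cast h1
    omega
  have hl16 : 16 ≤ l := by
    by_contra hlt
    have h1 : 14 * l - 15 ≤ L := by omega
    have h2 : (14 * l - 15) ^ 2 < 2 ^ l := lt_of_le_of_lt
      ((Nat.pow_le_pow_left h1 2).trans hL) hnl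
    have h3 : l < 16 := by omega
    interval_cases l <;> norm_num at h2
  obtain ⟨q, hq⟩ : ∃ q, l = q + 16 := ⟨l - 16, by omega⟩
  have hxq : (q : ℝ) + 15 ≤ Real.logb 2 n := by
    have h2 : ((l - 1 : ℕ) : ℝ) = (q : ℝ) + 15 := by
      rw [hq]
      push_cast
      norm_num
    rwa [h2] at hx
  obtain ⟨σ, ν, h, b, a, j0, e, hσ, hν, hh, hh1, hh2, hn1, hn2, hσL, hLb, hν10, hj0, hj0h, hj1, hbe,
    hab⟩ := params (q := q) (by rwa [← hq]) hL hr (by omega)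
  have hn0 : 0 < n := by omega
  have hlam0 : (0 : ℝ) < ((2 : ℝ) ^ (5 * q + 65))⁻¹ := by positivity
  have hlam1 : ((2 : ℝ) ^ (5 * q + 65))⁻¹ < 1 := by
    apply inv_lt_one_of_one_lt₀
    exact one_lt_pow₀ (by norm_num) (by omega)
  have hνb : ν * b ≤ n := by omega
  obtain ⟨Δ, hΔ⟩ : ∃ Δ, Δ = 2 * (ν * b) + ν * (1 + a) + 3 := ⟨_, rfl⟩
  have hΔn : Δ ≤ 4 * n := by
    have h1 : ν * (1 + a) ≤ ν * b := Nat.mul_le_mul_left _ (by omega)
    have h2 : 3 ≤ n := by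
      have h3 : 1 * 3 ≤ ν * b := Nat.mul_le_mul (by omega) (by omega)
      omega
    omega
  have hm' : 2 ^ σ * (ν ^ 2 * 4 ^ b) ≤ M.card := by
    refine le_trans ?_ hm
    calc 2 ^ σ * (ν ^ 2 * 4 ^ b) ≤ 2 ^ σ * ((2 ^ (q + 10)) ^ 2 * 4 ^ b) := by
          gcongr
      _ = 2 ^ (σ + 2 * (q + 10) + 2 * b) := by
          rw [show (4 : ℕ) = 2 ^ 2 by norm_num, ← pow_mul, ← pow_mul, ← pow_add, ← pow_add]
          congr 1
          ring
      _ ≤ 2 ^ L := Nat.pow_le_pow_right (by norm_num) hσL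
  have hlamΔ : 32 * Δ * ν ^ 2 * 4 ^ a ≤ 2 ^ (5 * q + 65) := by
    calc 32 * Δ * ν ^ 2 * 4 ^ a
        ≤ 32 * (4 * 2 ^ (q + 16)) * (2 ^ (q + 10)) ^ 2 * (2 ^ (q + 11)) ^ 2 := by
          have h2 : Δ ≤ 4 * 2 ^ (q + 16) := by
            rw [hq] at hnl
            omega
          have h4 : 4 ^ a ≤ (2 ^ (q + 11)) ^ 2 := by
            rw [show (4 : ℕ) = 2 ^ 2 by norm_num, ← pow_mul, mul_comm 2 a, pow_mul]
            refine Nat.pow_le_pow_left ?_ 2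
            have h5 : (2 : ℕ) ^ (q + 11) = 2 ^ (q + 10) * 2 := by
              rw [show q + 11 = q + 10 + 1 by ring, pow_succ]
            omega
          gcongr
      _ = 2 ^ (5 * q + 65) := by
          rw [show (32 : ℕ) = 2 ^ 5 by norm_num, show (4 : ℕ) = 2 ^ 2 by norm_num, ← pow_mul,
            ← pow_mul, ← pow_add, ← pow_add, ← pow_add, ← pow_add]
          congr 1
          ring
  have hj2 : ∀ j : ℕ, j0 < j → j ≤ ν → ((2 ^ b : ℕ) : ℝ) ^ (ν - j) ≤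
      (2 : ℝ) ^ (b * ν) / 2 ^ (e * (j0 + 1)) * (((2 : ℝ) ^ (5 * q + 65))⁻¹) ^ j := by
    intro j hj hjν
    rw [inv_pow, ← div_eq_mul_inv, div_div, le_div_iff₀ (by positivity), ← pow_mul]
    push_cast
    rw [← pow_mul, ← pow_add, ← pow_add]
    refine pow_le_pow_right₀ (by norm_num) ?_
    obtain ⟨d, hd⟩ : ∃ d, ν = j + d := ⟨ν - j, by omega⟩
    rw [hd, Nat.add_sub_cancel_left, hbe]
    have h1 : e * (j0 + 1) ≤ e * j := Nat.mul_le_mul_left _ hj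
    have h2 : (e + (5 * q + 65)) * d + (e * (j0 + 1) + (5 * q + 65) * j) ≤
        (e + (5 * q + 65)) * d + (e * j + (5 * q + 65) * j) := by omega
    refine h2.trans (le_of_eq ?_)
    ring
  have hlamΔ' : 32 * (Δ : ℝ) * (ν : ℝ) ^ 2 * 4 ^ a * ((2 : ℝ) ^ (5 * q + 65))⁻¹ ≤ 1 := by
    rw [← div_eq_mul_inv, div_le_one (by positivity)]
    exact_mod_cast hlamΔ
  have hσb : σ + 2 * b ≤ L := by omega
  rw [← hσ]
  obtain ⟨c, hc⟩ : ∃ c, c = (5 * q + 65) * ν + σ + 1 := ⟨_, rfl⟩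
  have hexp : (n : ℝ) * (1 - 15 * Real.logb 2 n / D) ≤ ((ν * b : ℕ) : ℝ) - (c : ℝ) := by
    rw [hc]
    refine exponent hL hxq hDx hDn hDL hn1 hn2 hσL ?_
    have h1 : ((L - r : ℕ) : ℝ) ≤ ((2 * b + 2 * q + 23 : ℕ) : ℝ) := by exact_mod_cast hLb
    rw [Nat.cast_sub hr.le] at h1
    push_cast at h1
    exact h1
  have hT0 : (2 : ℝ) ^ (b * ν) / 2 ^ (e * (j0 + 1)) * 2 ^ σ ≤ 2 ^ (b * ν) / 2 := by
    rw [div_mul_eq_mul_div, div_le_div_iff₀ (by positivity) (by norm_num), mul_assoc]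
    refine mul_le_mul_of_nonneg_left ?_ (by positivity)
    calc (2 : ℝ) ^ σ * 2 = 2 ^ (σ + 1) := by rw [pow_succ]
      _ ≤ _ := pow_le_pow_right₀ (by norm_num) hj1
  have hH := @hZOC n m σ ν h a b j0 Δ (((2 : ℝ) ^ (5 * q + 65))⁻¹)
    ((2 : ℝ) ^ (b * ν) / 2 ^ (e * (j0 + 1))) M hν hh hh1 hh2 hn1 hm' hn0 hlam0 hlam1
    (by positivity) (by omega) (by omega) hj0h hj2 hlamΔ'
    (2 ^ ((n : ℝ) * (1 - 15 * Real.logb 2 n / D)))
    (fun s hsize => size hc hΔ hexp hT0 hsize)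
  obtain ⟨Ω, X, i1, i2, i3, i4, A, P, H1, H2, H3, H4, H5, H6, H7, H8, H9⟩ := hH
  refine ⟨Ω, X, i1, i2, i3, i4, A, P, H1, H2, H3, H4, H5, H6, ?_, ?_, H9⟩
  · intro y t j
    rcases H7 y t j with h | h
    · exact Or.inl h
    · exact Or.inr (h.trans hσb)
  · intro y t x j
    rcases H8 y t x j with h | h
    · exact Or.inl h
    · exact Or.inr (h.trans hσb)

end Pool.Agent.H10.QF
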